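import Pool.Agent.H3.SF.Tg2

/-!
# MP_70ba79_ag, THEOREM S: products, powers, derivatives of homogeneous elements (TWM)
-/

set_option autoImplicit false

namespace Pool.Agent.H19.SRF

open MvPolynomial SC Pool.Agent.H27.LV
open Pool.Agent.H84.SM (dp cr dt)
open Pool.Agent.H92.SF Pool.Agent.H3.SF

section

variable {k F : Type} [Field k] [Field F] [Algebra k F]

theorem hm_zero (E : Derivation k F F) (t : ℤ) : Hm k E t 0 := by
  unfold Hm
  rw [map_zero, mul_zero]

theorem hm_add {E : Derivation k F F} {t : ℤ} {a b : F} (ha : Hm k E t a) (hb : Hm k E t b) :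
    Hm k E t (a + b) := by
  unfold Hm at *
  rw [map_add, ha, hb, mul_add]

theorem hm_sum {ι : Type} {E : Derivation k F F} {t : ℤ} (s : Finset ι) (f : ι → F)
    (h : ∀ i ∈ s, Hm k E t (f i)) : Hm k E t (∑ i ∈ s, f i) := by
  unfold Hm at *
  rw [map_sum, Finset.mul_sum]
  exact Finset.sum_congr rfl h

theorem hm_mul {E : Derivation k F F} {s t : ℤ} {a b : F} (ha : Hm k E s a) (hb : Hm k E t b) :
    Hm k E (s + t) (a * b) := by
  unfold Hm at *
  rw [Derivation.leibniz, ha, hb, smul_eq_mul, smul_eq_mul]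
  push_cast
  ring

theorem hm_one (E : Derivation k F F) : Hm k E 0 1 := by
  unfold Hm
  simp

theorem hm_nat {E : Derivation k F F} {t : ℤ} {a : F} (ha : Hm k E t a) (n : ℕ) :
    Hm k E t (a * (n : F)) := by
  unfold Hm at *
  rw [Derivation.leibniz, ha, Derivation.map_natCast, smul_eq_mul, smul_eq_mul, mul_zero,
    zero_add]
  ring

theorem wh_mul {n n' : ℕ} {V V' : Q2 F} (h : WH n V) (h' : WH n' V') : WH (n + n') (V * V') := by
  intro j
  constructor
  · intro hj
    rw [Polynomial.coeff_mul]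
    refine IsHomogeneous.sum _ _ _ fun x hx => ?_
    have hx := Finset.HasAntidiagonal.mem_antidiagonal.1 hx
    rcases Nat.lt_or_ge n (3 * x.1) with h1 | h1
    · rw [(h x.1).2 h1, zero_mul]
      exact isHomogeneous_zero _ _ _
    · rcases Nat.lt_or_ge n' (3 * x.2) with h2 | h2
      · rw [(h' x.2).2 h2, mul_zero]
        exact isHomogeneous_zero _ _ _
      · have h3 := ((h x.1).1 h1).mul ((h' x.2).1 h2)
        have e : n - 3 * x.1 + (n' - 3 * x.2) = n + n' - 3 * j := by omega
        rwa [e] at h3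
  · intro hj
    rw [Polynomial.coeff_mul]
    refine Finset.sum_eq_zero fun x hx => ?_
    have hx := Finset.HasAntidiagonal.mem_antidiagonal.1 hx
    rcases Nat.lt_or_ge n (3 * x.1) with h1 | h1
    · rw [(h x.1).2 h1, zero_mul]
    · rw [(h' x.2).2 (by omega), mul_zero]

theorem tw_mul {u : Fin 3 → F} {dd : Fin 3 → Derivation k F F} {n n' : ℕ} {τ τ' : ℤ}
    {V V' : Q2 F} (h : Tw u dd n τ V) (h' : Tw u dd n' τ' V') :
    Tw u dd (n + n') (τ + τ') (V * V') := by
  refine ⟨wh_mul h.1 h'.1, fun j a => ?_⟩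
  rw [Polynomial.coeff_mul, coeff_sum]
  refine hm_sum _ _ fun x hx => ?_
  rw [coeff_mul]
  refine hm_sum _ _ fun y _ => ?_
  have h1 := hm_mul (h.2 x.1 y.1) (h'.2 x.2 y.2)
  have hx := Finset.HasAntidiagonal.mem_antidiagonal.1 hx
  have e : τ - 2 * (n : ℤ) + 3 * (x.1 : ℤ) + (τ' - 2 * (n' : ℤ) + 3 * (x.2 : ℤ)) =
      τ + τ' - 2 * ((n + n' : ℕ) : ℤ) + 3 * (j : ℤ) := by
    rw [← hx]
    push_cast
    ring
  rwa [e] at h1

theorem tw_const {u : Fin 3 → F} {dd : Fin 3 → Derivation k F F} {t : ℤ} {c : F}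
    (h : Hm k (eu u dd) t c) : Tw u dd 0 t (cq c) := by
  have hcq : ∀ j, (cq c : Q2 F).coeff j = if j = 0 then C c else 0 := by
    intro j
    show (Polynomial.C (C c) : Q2 F).coeff j = _
    rw [Polynomial.coeff_C]
  refine ⟨fun j => ⟨fun hj => ?_, fun hj => ?_⟩, fun j a => ?_⟩
  · have hj0 : j = 0 := by omega
    rw [hcq, if_pos hj0, hj0]
    exact isHomogeneous_C _ _
  · rw [hcq, if_neg (by omega)]
  · rw [hcq]
    by_cases hj : j = 0
    · rw [if_pos hj, hj, coeff_C]
      split_ifs
      · have e : t - 2 * ((0 : ℕ) : ℤ) + 3 * ((0 : ℕ) : ℤ) = t := by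
          push_cast
          ring
        rw [e]
        exact h
      · exact hm_zero _ _
    · rw [if_neg hj, coeff_zero]
      exact hm_zero _ _

end

theorem pf_TWM : T_TWM := by
  intro k F _ _ _ u dd
  refine ⟨fun n n' τ τ' V V' => tw_mul, ?_, ?_, fun t c => tw_const, ?_⟩
  · intro n r τ V h
    induction r with
    | zero =>
      have h1 := tw_const (u := u) (dd := dd) (hm_one (eu u dd))
      rw [map_one] at h1
      rw [zero_mul, Nat.cast_zero, zero_mul, pow_zero]
      exact h1
    | succ r ih =>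
      have h1 := tw_mul ih h
      have e1 : r * n + n = (r + 1) * n := by ring
      have e2 : (r : ℤ) * τ + τ = ((r + 1 : ℕ) : ℤ) * τ := by
        push_cast
        ring
      rw [e1, e2] at h1
      rw [pow_succ]
      exact h1
  · intro n τ V h
    have hcast : ∀ (j : ℕ), ((j : MvPolynomial (Fin 2) F) + 1) = C (((j + 1 : ℕ) : F)) := by
      intro j
      rw [map_natCast]
      push_cast
      rfl
    refine ⟨fun j => ⟨fun hj => ?_, fun hj => ?_⟩, fun j a => ?_⟩
    · rw [Polynomial.coeff_derivative, hcast]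
      have h1 := ((h.1 (j + 1)).1 (by omega)).mul (isHomogeneous_C (Fin 2) ((j + 1 : ℕ) : F))
      have e : n + 3 - 3 * (j + 1) + 0 = n - 3 * j := by omega
      rwa [e] at h1
    · rw [Polynomial.coeff_derivative, (h.1 (j + 1)).2 (by omega), zero_mul]
    · rw [Polynomial.coeff_derivative, hcast,
        mul_comm (Polynomial.coeff V (j + 1)), coeff_C_mul, mul_comm (((j + 1 : ℕ) : F))]
      have h1 := hm_nat (h.2 (j + 1) a) (j + 1)
      have e : τ + 3 - 2 * ((n + 3 : ℕ) : ℤ) + 3 * ((j + 1 : ℕ) : ℤ) =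
          τ - 2 * (n : ℤ) + 3 * (j : ℤ) := by
        push_cast
        ring
      rwa [e] at h1
  · refine ⟨fun j => ⟨fun hj => ?_, fun hj => ?_⟩, fun j a => ?_⟩
    · rw [Polynomial.coeff_X]
      split_ifs with h1
      · rw [← h1]
        exact isHomogeneous_one _ _
      · exact isHomogeneous_zero _ _ _
    · rw [Polynomial.coeff_X, if_neg (by omega)]
    · rw [Polynomial.coeff_X]
      split_ifs with h1
      · have e : (3 : ℤ) - 2 * ((3 : ℕ) : ℤ) + 3 * (j : ℤ) = 0 := by
          rw [← h1]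
          norm_num
        rw [e, coeff_one]
        by_cases h2 : 0 = a
        · rw [if_pos h2]
          exact hm_one _
        · rw [if_neg h2]
          exact hm_zero _ _
      · rw [coeff_zero]
        exact hm_zero _ _

end Pool.Agent.H19.SRF
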