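import Pool.Agent.H19.SRF.CN2a
import Pool.Agent.H19.SRF.TWM
import Pool.Agent.H19.SFG.DMA

/-!
# MP_70ba79_ag, THEOREM S: first reduction of the denominators (CN2)
-/

set_option autoImplicit false

namespace Pool.Agent.H19.SRF

open MvPolynomial SC Pool.Agent.H27.LV
open Pool.Agent.H84.SM (dp cr dt)
open Pool.Agent.H92.SF Pool.Agent.H3.SF

section

variable {k F : Type} [Field k] [Field F] [Algebra k F]

theorem hm_pow {E : Derivation k F F} {t : ℤ} {a : F} (ha : Hm k E t a) (n : ℕ) :
    Hm k E (n * t) (a ^ n) := by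
  induction n with
  | zero =>
    have h := hm_one E
    rw [Nat.cast_zero, zero_mul, pow_zero]
    exact h
  | succ n ih =>
    have h := hm_mul ih ha
    have e : (n : ℤ) * t + t = ((n + 1 : ℕ) : ℤ) * t := by
      push_cast
      ring
    rw [e] at h
    rw [pow_succ]
    exact h

theorem hm_div {E : Derivation k F F} {s t : ℤ} {a b : F} (ha : Hm k E s a) (hb : Hm k E t b)
    (hb0 : b ≠ 0) : Hm k E (s - t) (a / b) := by
  unfold Hm at *
  obtain ⟨q, hq⟩ : ∃ q, q = a / b := ⟨_, rfl⟩
  have e : a = q * b := by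
    rw [hq]
    field_simp
  have h := congrArg E e
  rw [Derivation.leibniz, ha, hb, smul_eq_mul, smul_eq_mul] at h
  have h1 : b * E q = b * ((s - t) * q) := by
    linear_combination -h + s * e
  have h3 := mul_left_cancel₀ hb0 h1
  rw [← hq, h3]
  push_cast
  ring

/-- values at the unit vectors are homogeneous -/
theorem hm_eval_single {E : Derivation k F F} (b : MvPolynomial (Fin 3) F)
    (hb : ∀ a, Hm k E 0 (b.coeff a)) (l : Fin 3) :
    Hm k E 0 (eval (Pi.single l (1 : F)) b) := by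
  rw [eval_eq']
  refine hm_sum _ _ fun a _ => ?_
  have h1 : ∀ s : Finset (Fin 3), Hm k E 0 (∏ i ∈ s, (Pi.single l (1 : F) : Fin 3 → F) i ^ a i) := by
    intro s
    induction s using Finset.induction_on with
    | empty =>
      rw [Finset.prod_empty]
      exact hm_one E
    | insert i s hi ih =>
      rw [Finset.prod_insert hi]
      have h2 : Hm k E 0 ((Pi.single l (1 : F) : Fin 3 → F) i) := by
        by_cases h : i = l
        · rw [h, Pi.single_eq_same]
          exact hm_one E
        · rw [Pi.single_eq_of_ne h]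
          exact hm_zero E 0
      have h3 := hm_mul (hm_pow h2 (a i)) ih
      rw [mul_zero, zero_add] at h3
      exact h3
  have h4 := hm_mul (hb a) (h1 Finset.univ)
  rwa [zero_add] at h4

/-- a valuation ring in which a linear form of the `c j` is a unit -/
theorem nv_unit {L : Type} [Field L] [Algebra k L] (o : ValuationSubring L)
    (hcon : ∀ x : k, algebraMap k L x ∈ o) (c : Fin 3 → L) (a : Fin 3 → k) (v : L)
    (hv : v = ∑ j, a j • c j) (hv0 : v ≠ 0) (hvi : v⁻¹ ∈ o) : ∃ j, c j ≠ 0 ∧ (c j)⁻¹ ∈ o := by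
  by_contra hcon'
  push Not at hcon'
  have h1 : ∀ j, o.valuation (a j • c j) < 1 := by
    intro j
    rw [Algebra.smul_def, map_mul]
    have h2 : o.valuation (algebraMap k L (a j)) ≤ 1 := (o.valuation_le_one_iff _).2 (hcon _)
    have h3 : o.valuation (c j) < 1 := by
      by_cases h : c j = 0
      · rw [h, map_zero]
        exact zero_lt_one
      · by_contra h4
        push Not at h4
        refine hcon' j h ?_
        rw [← o.valuation_le_one_iff, map_inv₀]
        exact inv_le_one_of_one_le₀ h4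
    calc o.valuation (algebraMap k L (a j)) * o.valuation (c j) ≤ 1 * o.valuation (c j) := by
          gcongr
      _ = o.valuation (c j) := one_mul _
      _ < 1 := h3
  have h5 : o.valuation v < 1 := by
    rw [hv]
    exact Valuation.map_sum_lt _ one_ne_zero fun j _ => h1 j
  have h6 := (o.valuation_le_one_iff _).2 hvi
  rw [map_inv₀] at h6
  have h7 : o.valuation v ≠ 0 := (Valuation.ne_zero_iff _).2 hv0
  have h8 : 1 ≤ o.valuation v := by
    have h9 := mul_le_mul_right h6 (o.valuation v)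
    rw [mul_inv_cancel₀ h7, mul_one] at h9
    exact h9
  exact absurd h5 (not_lt.2 h8)

end

theorem pf_CN2 (hCNI : T_CNI) (hCNS : T_CNS) (hSF1 : T_SF1) (hSF2 : T_SF2) (hCLS : T_CLS)
    (hVRI : T_VRI) (hNGD : T_NGD) : T_CN2 := by
  intro k F _ _ _ _ _ u dd δ j0 c0 J hS m G hm hC LL _ _ π v EL d hD b h H hb hHh hH0 hdeg hint
  obtain ⟨hHd, hui, hpi, -, -, hdl, -⟩ := hSF1 k F u dd δ j0 c0 J hS
  obtain ⟨hDat, hJg, hJH, hge, hex, -⟩ := hSF2 k F u dd δ j0 c0 J hS m G hC
  have hm0 : (m : F) ≠ 0 := by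
    have : (m : F) = algebraMap k F m := by rw [map_natCast]
    rw [this, map_ne_zero]
    exact_mod_cast (by omega : m ≠ 0)
  have hG0 : G ≠ 0 := hC.ne
  obtain ⟨ι, hι⟩ : ∃ ι : Bb k u →+* F, ι = ((Bb k u).val : Bb k u →+* F) := ⟨_, rfl⟩
  have hιv : ∀ x : Bb k u, ι x = (x : F) := fun x => by rw [hι]; rfl
  have hιi : Function.Injective ι := by
    intro x y hxy
    rw [hιv, hιv] at hxy
    exact Subtype.ext hxy
  obtain ⟨uB, huB⟩ : ∃ uB : Fin 3 → Bb k u, ∀ i, ι (uB i) = u i :=
    ⟨fun i => ⟨u i, hui i⟩, fun i => hιv _⟩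
  obtain ⟨jB, hjB⟩ : ∃ jB : Bb k u, ι jB = aeval u J := ⟨⟨_, hpi J⟩, hιv _⟩
  obtain ⟨HB, hHB⟩ : ∃ HB : Bb k u, ι HB = aeval u H := ⟨⟨_, hpi H⟩, hιv _⟩
  obtain ⟨Gb, hGb⟩ : ∃ Gb : Bb k u, ι Gb = G := ⟨⟨_, hC.itg⟩, hιv _⟩
  obtain ⟨GB, hGB⟩ : ∃ GB : Fin 3 → Bb k u, ∀ l, ι (GB l) = aeval u J * dd l G :=
    ⟨fun l => ⟨_, hJg l⟩, fun l => hιv _⟩
  obtain ⟨HH, hHH⟩ : ∃ HH : Fin 3 → Fin 3 → Bb k u, ∀ i j, ι (HH i j) =
      aeval u J ^ 3 * dd i (dd j G) := ⟨fun i j => ⟨_, hJH i j⟩, fun i j => hιv _⟩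
  obtain ⟨B, hB⟩ := lift_coeff (Bb k u) (C (aeval u H / G) * bet u dd J G b) (fun a => by
    have h1 := hint a
    have e : coeff a (C (aeval u H / G) * bet u dd J G b) =
        aeval u H * ((bet u dd J G b).coeff a / G) := by
      rw [coeff_C_mul]
      ring
    rw [e]
    exact h1)
  rw [← hι] at hB
  -- `B` is a cubic form
  have hgxh : ∀ i, (gx dd G i).IsHomogeneous 1 := by
    intro i
    unfold gx cr
    have h1 := (isHomogeneous_C (Fin 3) (grd dd G (i + 1))).mul (isHomogeneous_X F (i + 2))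
    have h2 := (isHomogeneous_C (Fin 3) (grd dd G (i + 2))).mul (isHomogeneous_X F (i + 1))
    rw [zero_add] at h1 h2
    exact h1.sub h2
  have hbeth : (bet u dd J G b).IsHomogeneous 3 := by
    unfold bet
    refine IsHomogeneous.sub ?_ ?_
    · have h1 := hb.hb.aeval (fun i => C (aeval u J ^ 2) * gx dd G i) (n := 1) (fun i => by
        have h2 := (isHomogeneous_C (Fin 3) (aeval u J ^ 2 : F)).mul (hgxh i)
        rwa [zero_add] at h2)
      rwa [one_mul] at h1
    · have h1 : (hq (fun i j => C (hes dd G i j)) (gx dd G) (gx dd G)).IsHomogeneous 2 := by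
        unfold hq
        refine IsHomogeneous.sum _ _ _ fun i _ => IsHomogeneous.sum _ _ _ fun j _ => ?_
        exact ((isHomogeneous_C _ _).mul (hgxh i)).mul (hgxh j)
      have h2 : (dp (fun i => C (u i)) (X : Fin 3 → MvPolynomial (Fin 3) F)).IsHomogeneous 1 := by
        unfold dp
        refine IsHomogeneous.sum _ _ _ fun i _ => ?_
        have h3 := (isHomogeneous_C (Fin 3) (u i)).mul (isHomogeneous_X F i)
        rwa [zero_add] at h3
      have h3 := ((isHomogeneous_C (Fin 3) (aeval u J ^ 6 : F)).mul h1).mul h2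
      exact h3
  have hBh : B.IsHomogeneous 3 := by
    refine homog_of_map ι hιi B 3 ?_
    rw [hB]
    have h1 := (isHomogeneous_C (Fin 3) (aeval u H / G)).mul hbeth
    rwa [zero_add] at h1
  -- recovering `b`
  obtain ⟨Y, hY⟩ : ∃ Y : Fin 3 → MvPolynomial (Fin 3) (Bb k u),
      Y = fun i => -cr (fun j => C (uB j)) X i := ⟨_, rfl⟩
  obtain ⟨B', hB'⟩ : ∃ B' : MvPolynomial (Fin 3) (Bb k u), B' = eval₂ C Y B := ⟨_, rfl⟩
  have hmapC : ∀ (R₁ : Type) [CommRing R₁] (f : Bb k u →+* R₁),
      map f B' = eval₂ (C.comp f) (fun i => -cr (fun j => C (f (uB j))) X i) B := by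
    intro R₁ _ f
    rw [hB', eval₂_comp_left]
    have e1 : (map f).comp (C : Bb k u →+* MvPolynomial (Fin 3) (Bb k u)) = C.comp f := by
      ext a
      rw [RingHom.comp_apply, RingHom.comp_apply, map_C]
    have e2 : (map f ∘ Y) = fun i => -cr (fun j => C (f (uB j))) X i := by
      funext i
      show map f (Y i) = _
      rw [hY, map_neg, map_cr]
      simp only [map_C, map_X]
    rw [e1, e2]
  obtain ⟨κ, hκ⟩ : ∃ κ : F, κ = aeval u J ^ 6 * (m : F) ^ 3 * aeval u H * G ^ 2 := ⟨_, rfl⟩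
  have hB'F : map ι B' = C κ * b := by
    have h1 := hCNI k F u dd δ j0 c0 J hS m G (by omega) hC b hb
    rw [hmapC F ι, ← eval₂_map, hB, eval₂_mul, eval₂_C]
    simp only [huB]
    have h2 : eval₂ C (fun i => -cr (fun j => C (u j)) X i) (bet u dd J G b) =
        C (aeval u J ^ 6 * (m : F) ^ 3 * G ^ 3) * b := h1
    rw [h2, ← mul_assoc, ← C_mul, hκ]
    congr 2
    field_simp
  -- the shift
  have hshift : ∀ (R₁ : Type) [CommRing R₁] (χ : Bb k u →+* R₁) (ρ : Fin 3 → R₁) (t : R₁),
      eval₂ χ (fun i => ρ i + t * χ (GB i)) B = eval₂ χ ρ B -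
        t * χ (m * jB ^ 2 * HB) * hq (fun i j => χ (HH i j)) (cr (fun i => χ (GB i)) ρ)
          (cr (fun i => χ (GB i)) ρ) := by
    intro R₁ _ χ ρ t
    refine shift_all ι hιi B GB HH (m * jB ^ 2 * HB) ?_ χ ρ t
    intro ρ t
    have h1 := (hCNS k F u dd δ j0 c0 J hS m G (by omega) hC b hb).1 (MvPolynomial (Fin 4) F) ρ
      (t * C (aeval u J))
    rw [← eval₂_map, ← eval₂_map, hB, eval₂_mul, eval₂_mul, eval₂_C, eval₂_C]
    have h2 : eval₂ C (fun i => ρ i + t * C (aeval u J) * C (dd i G)) (bet u dd J G b) =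
        eval₂ C ρ (bet u dd J G b) - t * C (aeval u J) * C (m * G * aeval u J ^ 6) *
          hq (fun i j => C (hes dd G i j)) (cr (fun i => C (dd i G)) ρ)
            (cr (fun i => C (dd i G)) ρ) := h1
    have e1 : (fun i => ρ i + t * C (ι (GB i))) =
        fun i => ρ i + t * C (aeval u J) * C (dd i G) := by
      funext i
      rw [hGB, C_mul]
      ring
    have e2 : cr (fun i => C (ι (GB i))) ρ =
        fun i => C (aeval u J) * cr (fun i => C (dd i G)) ρ i := by
      funext i
      simp only [hGB, cr, C_mul]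
      ring
    have e3 : ∀ a : Fin 3 → MvPolynomial (Fin 4) F,
        hq (fun i j => C (ι (HH i j))) a a = C (aeval u J) ^ 3 *
          hq (fun i j => C (hes dd G i j)) a a := by
      intro a
      simp only [hq, hHH, hes, C_mul, C_pow, Finset.mul_sum]
      refine Finset.sum_congr rfl fun i _ => Finset.sum_congr rfl fun j _ => ?_
      ring
    rw [e1, h2, e2, e3, hq_smul]
    have e4 : ι (m * jB ^ 2 * HB) = m * aeval u J ^ 2 * aeval u H := by
      rw [map_mul, map_mul, map_pow, hjB, hHB, map_natCast]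
    rw [e4]
    have e5 : (C (aeval u H / G) : MvPolynomial (Fin 4) F) * C (m * G * aeval u J ^ 6) =
        C (m * aeval u J ^ 2 * aeval u H) * C (aeval u J) ^ 4 := by
      rw [← C_mul, ← C_pow, ← C_mul]
      congr 1
      field_simp
    have h3 : ∀ q1 : MvPolynomial (Fin 4) F,
        (C (aeval u H / G) : MvPolynomial (Fin 4) F) * (t * C (aeval u J) *
          C (m * G * aeval u J ^ 6) * q1) = t * C (m * aeval u J ^ 2 * aeval u H) *
          (C (aeval u J) ^ 3 * (C (aeval u J) ^ 2 * q1)) := by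
      intro q1
      linear_combination (t * C (aeval u J) * q1) * e5
    rw [mul_sub, h3]
  -- the field of the curve
  obtain ⟨p, hp⟩ : ∃ p : Bb k u →+* LL, p = (π : Bb k u →+* LL) := ⟨_, rfl⟩
  have hpπ : ∀ x, p x = π x := fun x => by rw [hp]; rfl
  have hker : ∀ x : Bb k u, p x = 0 ↔ Itg k u (ι x / G) := by
    intro x
    rw [hpπ, hιv]
    exact hD.ker x
  have hpG : p Gb = 0 := by
    rw [hker, hGb, div_self hG0]
    exact (Bb k u).one_mem
  have hJ0 : aeval u J ≠ 0 := by
    intro h0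
    exact hS.J0 (hS.ind (by rw [h0, map_zero]))
  have hEu : ∀ i, eu u dd (u i) = u i := hHd.eul
  have hJhm : Hm k (eu u dd) j0 (aeval u J) := Pool.Agent.H19.SFG.hm_homog u _ hEu J j0 hS.Jh
  have hHhm : Hm k (eu u dd) h (aeval u H) := Pool.Agent.H19.SFG.hm_homog u _ hEu H h hHh
  have hjj : p jB ≠ 0 := by
    intro h0
    rw [hker, hjB] at h0
    have h1 := hge j0 (aeval u J) hJ0 (hpi J) hJhm h0
    omega
  obtain ⟨c, hc⟩ : ∃ c : Fin 3 → LL, c = fun i => p (uB i) := ⟨_, rfl⟩
  obtain ⟨g, hg⟩ : ∃ g : Fin 3 → LL, g = fun i => p (GB i) := ⟨_, rfl⟩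
  have hcv : ∀ i, p (uB i) = c i := fun i => by rw [hc]
  have hgv : ∀ i, p (GB i) = g i := fun i => by rw [hg]
  have hgc : dp g c = 0 := by
    have e1 : dp GB uB = m * jB * Gb := by
      apply hιi
      rw [map_dp, map_mul, map_mul, hjB, hGb, map_natCast]
      simp only [huB, hGB]
      have h1 := hDat.eul
      simp only [dp] at h1 ⊢
      have h2 : ∑ i, aeval u J * dd i G * u i = aeval u J * ∑ i, u i * grd dd G i := by
        rw [Finset.mul_sum]
        refine Finset.sum_congr rfl fun i _ => ?_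
        simp only [grd]
        ring
      rw [h2, h1]
      ring
    have h2 := congrArg p e1
    rw [map_dp, map_mul, hpG, mul_zero] at h2
    rw [hc, hg]
    exact h2
  have hHc : ∀ i, ∑ j, p (HH i j) * c j = (m - 1) * p jB ^ 2 * g i := by
    intro i
    have e1 : ∑ j, HH i j * uB j = (m - 1) * jB ^ 2 * GB i := by
      apply hιi
      rw [map_sum, map_mul, map_mul, map_sub, map_natCast, map_one, map_pow, hjB, hGB]
      have h1 := hDat.hes i
      have h2 : ∑ j, ι (HH i j * uB j) = aeval u J ^ 3 * ∑ j, hes dd G i j * u j := by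
        rw [Finset.mul_sum]
        refine Finset.sum_congr rfl fun j _ => ?_
        rw [map_mul, hHH, huB]
        simp only [hes]
        ring
      rw [h2, h1]
      simp only [grd]
      ring
    have h2 := congrArg p e1
    rw [map_sum, map_mul, map_mul, map_sub, map_natCast, map_one, map_pow] at h2
    simp only [map_mul, hcv, hgv] at h2
    exact h2
  have hqc : hq (fun i j => p (HH i j)) c c = 0 := by
    have e1 : hq (fun i j => p (HH i j)) c c = ∑ i, c i * (∑ j, p (HH i j) * c j) := by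
      unfold hq
      refine Finset.sum_congr rfl fun i _ => ?_
      rw [Finset.mul_sum]
      refine Finset.sum_congr rfl fun j _ => ?_
      ring
    have e2 : ∑ i, c i * ((m - 1) * p jB ^ 2 * g i) = (m - 1) * p jB ^ 2 * dp g c := by
      unfold dp
      rw [Finset.mul_sum]
      refine Finset.sum_congr rfl fun i _ => ?_
      ring
    rw [e1]
    simp only [hHc]
    rw [e2, hgc, mul_zero]
  obtain ⟨l, hl⟩ := hex (by omega)
  have hgl : g l ≠ 0 := by
    intro h0
    rw [← hgv, hker, hGB] at h0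
    exact hl h0
  obtain ⟨w, hw⟩ : ∃ w : MvPolynomial (Fin 3) LL, w = dp (fun i => C (g i)) X := ⟨_, rfl⟩
  obtain ⟨ρl, hρl⟩ : ∃ ρl : Fin 3 → LL,
      ρl = fun i => (-(g l)⁻¹) * cr c (Pi.single l 1) i := ⟨_, rfl⟩
  obtain ⟨s, hs⟩ : ∃ s : LL, s = eval₂ p ρl B := ⟨_, rfl⟩
  have hgρ : ∀ i, cr g ρl i = -c i := by
    intro i
    have e1 : dp g (Pi.single l (1 : LL)) = g l := by
      unfold dp
      rw [Finset.sum_eq_single l]
      · rw [Pi.single_eq_same, mul_one]
      · intro j _ hj
        rw [Pi.single_eq_of_ne hj, mul_zero]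
      · intro h0
        exact absurd (Finset.mem_univ l) h0
    rw [hρl, cr_smul, cr_cr, hgc, e1]
    field_simp
    ring
  have hmain : map p B' = w ^ 3 * C s := by
    rw [hmapC LL p]
    obtain ⟨z, hz⟩ : ∃ z : Fin 3 → MvPolynomial (Fin 3) LL,
      z = fun i => -cr (fun j => C (c j)) X i - w * C (ρl i) := ⟨_, rfl⟩
    have hcρ : ∀ i, cr (fun j => C (g j)) (fun j => C (ρl j)) i =
        (-C (c i) : MvPolynomial (Fin 3) LL) := by
      intro i
      rw [← map_neg, ← hgρ i, map_cr]
    have hcz : ∀ i, cr (fun j => C (g j)) z i = 0 := by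
      intro i
      have e1 : cr (fun j => C (g j)) z i =
          -cr (fun j => C (g j)) (cr (fun j => C (c j)) X) i -
            w * cr (fun j => C (g j)) (fun j => C (ρl j)) i := by
        rw [hz]
        simp only [cr]
        ring
      have e2 : dp (fun j => C (g j)) (fun j => C (c j)) = (0 : MvPolynomial (Fin 3) LL) := by
        rw [← map_dp, hgc, map_zero]
      rw [e1, cr_cr, e2, hcρ, ← hw]
      ring
    have hzi : ∀ i, z i = C (g l)⁻¹ * z l * C (g i) := by
      intro i
      have h1 := cr_prop hcz i l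
      have h2 : (C (g l)⁻¹ : MvPolynomial (Fin 3) LL) * C (g l) = 1 := by
        rw [← C_mul, inv_mul_cancel₀ hgl, C_1]
      linear_combination (-z i) * h2 - C (g l)⁻¹ * h1
    have hfun : (fun i => -cr (fun j => C (p (uB j))) X i) =
        fun i => w * C (ρl i) + C (g l)⁻¹ * z l * (C.comp p) (GB i) := by
      funext i
      have h1 := hzi i
      rw [RingHom.comp_apply, hgv]
      rw [← h1, hz]
      simp only [hcv]
      ring
    rw [hfun, hshift _ (C.comp p) (fun i => w * C (ρl i)) (C (g l)⁻¹ * z l)]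
    have e3 : cr (fun i => (C.comp p) (GB i)) (fun i => w * C (ρl i)) =
        fun i => (-w) * (C (c i) : MvPolynomial (Fin 3) LL) := by
      funext i
      rw [cr_smul]
      have e4 : (fun i => (C.comp p) (GB i)) = fun i => (C (g i) : MvPolynomial (Fin 3) LL) := by
        funext i
        rw [RingHom.comp_apply, hgv]
      rw [e4, hcρ]
      ring
    have e5 : hq (fun i j => (C.comp p) (HH i j)) (fun i => (C (c i) : MvPolynomial (Fin 3) LL))
        (fun i => C (c i)) = 0 := by
      have h1 := congrArg (C : LL →+* MvPolynomial (Fin 3) LL) hqc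
      rw [map_hq, map_zero] at h1
      exact h1
    rw [e3, hq_smul, e5, mul_zero, mul_zero, sub_zero, hom_eval₂ hBh, hs]
    congr 1
    exact (eval₂_comp_left (C : LL →+* MvPolynomial (Fin 3) LL) p ρl B).symm
  have hsing : ∀ (R₁ : Type) [CommRing R₁] (f : Bb k u →+* R₁) (l' : Fin 3),
      f (eval (Pi.single l' 1) B') = eval (Pi.single l' 1) (map f B') := by
    intro R₁ _ f l'
    rw [eval₂_comp, eval_map]
    congr 1
    funext i
    show f ((Pi.single l' (1 : Bb k u) : Fin 3 → Bb k u) i) = _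
    by_cases h0 : i = l'
    · rw [h0, Pi.single_eq_same, Pi.single_eq_same, map_one]
    · rw [Pi.single_eq_of_ne h0, Pi.single_eq_of_ne h0, map_zero]
  have hbl1 : ∀ l', p (eval (Pi.single l' 1) B') = g l' ^ 3 * s := by
    intro l'
    rw [hsing, hmain, map_mul, map_pow, eval_C, hw]
    congr 2
    unfold dp
    rw [map_sum, Finset.sum_eq_single l']
    · rw [map_mul, eval_C, eval_X, Pi.single_eq_same, mul_one]
    · intro j _ hj
      rw [map_mul, eval_C, eval_X, Pi.single_eq_of_ne hj, mul_zero]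
    · intro h0
      exact absurd (Finset.mem_univ l') h0
  have hbl2 : ∀ l', Hm k (eu u dd) (6 * j0 + h + 2 * m) (ι (eval (Pi.single l' 1) B')) := by
    intro l'
    rw [hsing, hB'F, map_mul, eval_C, hκ]
    have h1 := hm_nat (hm_one (eu u dd)) (m ^ 3)
    rw [one_mul] at h1
    push_cast at h1
    have h2 := hm_mul (hm_mul (hm_mul (hm_mul (hm_pow hJhm 6) h1) hHhm) (hm_pow hC.hom 2))
      (hm_eval_single b hb.hm l')
    have e : ((6 : ℕ) : ℤ) * (j0 : ℤ) + 0 + (h : ℤ) + ((2 : ℕ) : ℤ) * (m : ℤ) + 0 =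
        6 * (j0 : ℤ) + h + 2 * m := by
      push_cast
      ring
    rw [e] at h2
    exact h2
  have hEL : ∀ (x : Bb k u) (t : ℤ), Hm k (eu u dd) t (ι x) → Hm k EL t (p x) := by
    intro x t hx
    unfold Hm at hx ⊢
    have h1 := hD.eul x ((t : Bb k u) * x) (by
      rw [← hιv, map_mul, map_intCast, ← hx, hιv])
    rw [hpπ, h1, ← hpπ, ← hpπ, map_mul, map_intCast]
  have hr0 : s * p jB ^ 3 = 0 := by
    refine (hNGD k LL 2 d v EL hD.hd).1 (6 * j0 + h + 2 * m + ((3 : ℕ) : ℤ) * (j0 : ℤ) -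
      ((3 : ℕ) : ℤ) * ((j0 : ℤ) + (m - 1))) _ (by push_cast; omega) ?_ ?_
    · rw [hVRI k LL 2 v le_rfl hD.hd.ind]
      intro o ho
      have hπo : ∀ x, p x ∈ o := fun x => by
        rw [hpπ]
        exact (hVRI k LL 2 v le_rfl hD.hd.ind (π x)).1 (hD.itg x) o ho
      obtain ⟨i, hvi0, hvi⟩ := ho.unit
      obtain ⟨a, bb, hbb, hvb⟩ := hD.lin i
      have hvc : v i = ∑ j, a j • c j := by
        have e1 : bb = ∑ j, a j • uB j := by
          apply hιi
          rw [hιv, hbb, map_sum]
          refine Finset.sum_congr rfl fun j _ => ?_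
          rw [← huB j, hι]
          exact (map_smul (Bb k u).val (a j) (uB j)).symm
        rw [hvb, e1, map_sum]
        refine Finset.sum_congr rfl fun j _ => ?_
        rw [map_smul, ← hpπ, hcv]
      obtain ⟨j, hcj, hcji⟩ := nv_unit o ho.con c a (v i) hvc hvi0 hvi
      obtain ⟨N, hcert⟩ := hC.cert
      obtain ⟨e, he, hue⟩ := hcert j
      obtain ⟨eB, heB⟩ : ∃ eB : Fin 3 → Bb k u, ∀ l, ι (eB l) = e l :=
        ⟨fun l => ⟨_, (he l).1⟩, fun l => hιv _⟩
      have hid : jB * uB j ^ N = ∑ l, eB l * GB l := by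
        apply hιi
        rw [map_mul, map_pow, hjB, huB, hue, map_sum, Finset.mul_sum]
        refine Finset.sum_congr rfl fun l _ => ?_
        rw [map_mul, heB, hGB]
        ring
      have hid2 := congrArg p hid
      rw [map_mul, map_pow, map_sum, hcv] at hid2
      have hid3 : c j ^ N = ∑ l, p (eB l) * (g l / p jB) := by
        have h1 : p jB * ∑ l, p (eB l) * (g l / p jB) = ∑ l, p (eB l * GB l) := by
          rw [Finset.mul_sum]
          refine Finset.sum_congr rfl fun l _ => ?_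
          rw [map_mul, hgv]
          field_simp
        rw [← h1] at hid2
        exact mul_left_cancel₀ hjj hid2
      obtain ⟨l', hl0, hli, -⟩ := hCLS LL o N (c j) (fun l => p (eB l)) (fun l => g l / p jB)
        hcj hcji (fun l => hπo _) hid3
      have hr : s * p jB ^ 3 = p (eval (Pi.single l' 1) B') * ((g l' / p jB)⁻¹) ^ 3 := by
        rw [hbl1]
        have h1 : g l' ≠ 0 := by
          intro h0
          exact hl0 (by rw [h0, zero_div])
        field_simp
      rw [hr]
      exact mul_mem (hπo _) (pow_mem hli 3)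
    · have hr : s * p jB ^ 3 = p (eval (Pi.single l 1) B') * p jB ^ 3 / g l ^ 3 := by
        rw [hbl1]
        field_simp
      rw [hr]
      have h1 := hEL _ _ (hbl2 l)
      have h2 : Hm k EL j0 (p jB) := hEL jB j0 (by rw [hjB]; exact hJhm)
      have h3 : Hm k EL ((j0 : ℤ) + (m - 1)) (g l) := by
        rw [← hgv]
        refine hEL _ _ ?_
        rw [hGB]
        exact hm_mul hJhm (hdl m G l hC.hom)
      exact hm_div (hm_mul h1 (hm_pow h2 3)) (hm_pow h3 3) (pow_ne_zero _ hgl)
  have hs0 : s = 0 := (mul_eq_zero.1 hr0).resolve_right (pow_ne_zero _ hjj)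
  rw [hs0, C_0, mul_zero] at hmain
  intro a
  have h1 : p (B'.coeff a) = 0 := by
    rw [← coeff_map, hmain, coeff_zero]
  rw [hker, ← coeff_map, hB'F, coeff_C_mul, hκ] at h1
  have h2 := (Bb k u).smul_mem (show _ ∈ Bb k u from h1) (((m : k) ^ 3)⁻¹)
  have e : ((m : k) ^ 3)⁻¹ • (aeval u J ^ 6 * (m : F) ^ 3 * aeval u H * G ^ 2 * b.coeff a / G) =
      aeval u J ^ 6 * aeval u H * G * b.coeff a := by
    rw [Algebra.smul_def, map_inv₀, map_pow, map_natCast]
    field_simp
  rw [e] at h2
  exact h2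

end Pool.Agent.H19.SRF
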