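import Pool.Agent.H3.SF.Tg2

/-!
# MP_70ba79_ag, THEOREM S: first reduction of the denominators, algebraic lemmas (for CN2)
-/

set_option autoImplicit false

namespace Pool.Agent.H19.SRF

open MvPolynomial SC Pool.Agent.H27.LV
open Pool.Agent.H84.SM (dp cr dt)
open Pool.Agent.H92.SF Pool.Agent.H3.SF

section Alg

variable {R R' : Type} [CommRing R] [CommRing R']

theorem cr_cr (a b y : Fin 3 → R) (i : Fin 3) :
    cr a (cr b y) i = b i * dp a y - y i * dp a b := by
  have e0 : (0 : Fin 3) + 1 = 1 := rfl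
  have e1 : (1 : Fin 3) + 1 = 2 := rfl
  have e2 : (2 : Fin 3) + 1 = 0 := rfl
  have f0 : (0 : Fin 3) + 2 = 2 := rfl
  have f1 : (1 : Fin 3) + 2 = 0 := rfl
  have f2 : (2 : Fin 3) + 2 = 1 := rfl
  simp only [cr, dp, Fin.sum_univ_three]
  fin_cases i <;>
    simp only [Fin.zero_eta, Fin.mk_one, Fin.reduceFinMk, e0, e1, e2, f0, f1, f2] <;> ring

theorem cr_prop {a z : Fin 3 → R} (h : ∀ i, cr a z i = 0) (i l : Fin 3) :
    a i * z l = a l * z i := by
  have h0 : a 1 * z 2 - a 2 * z 1 = 0 := h 0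
  have h1 : a 2 * z 0 - a 0 * z 2 = 0 := h 1
  have h2 : a 0 * z 1 - a 1 * z 0 = 0 := h 2
  fin_cases i <;> fin_cases l <;>
    simp only [Fin.zero_eta, Fin.mk_one, Fin.reduceFinMk]
  · linear_combination h2
  · linear_combination -h1
  · linear_combination -h2
  · linear_combination h0
  · linear_combination h1
  · linear_combination -h0

theorem cr_smul (a z : Fin 3 → R) (w : R) (i : Fin 3) :
    cr a (fun j => w * z j) i = w * cr a z i := by
  simp only [cr]
  ring

theorem hq_smul (H : Fin 3 → Fin 3 → R) (a : Fin 3 → R) (w : R) :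
    hq H (fun i => w * a i) (fun i => w * a i) = w ^ 2 * hq H a a := by
  simp only [hq, Finset.mul_sum]
  refine Finset.sum_congr rfl fun i _ => Finset.sum_congr rfl fun j _ => ?_
  ring

theorem map_hq (f : R →+* R') (H : Fin 3 → Fin 3 → R) (a b : Fin 3 → R) :
    f (hq H a b) = hq (fun i j => f (H i j)) (fun i => f (a i)) (fun i => f (b i)) := by
  simp only [hq, map_sum, map_mul]

theorem map_cr (f : R →+* R') (a b : Fin 3 → R) (i : Fin 3) :
    f (cr a b i) = cr (fun j => f (a j)) (fun j => f (b j)) i := by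
  simp only [cr, map_sub, map_mul]

theorem map_dp (f : R →+* R') (a b : Fin 3 → R) :
    f (dp a b) = dp (fun j => f (a j)) (fun j => f (b j)) := by
  simp only [dp, map_sum, map_mul]

theorem hom_eval₂ {S : Type} [CommRing S] {B : MvPolynomial (Fin 3) S} {n : ℕ}
    (hB : B.IsHomogeneous n) (χ : S →+* R) (w : R) (ρ : Fin 3 → R) :
    eval₂ χ (fun i => w * ρ i) B = w ^ n * eval₂ χ ρ B := by
  rw [eval₂_eq', eval₂_eq', Finset.mul_sum]
  refine Finset.sum_congr rfl fun d hd => ?_
  have h1 : ∑ i, d i = n := by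
    have := hB (mem_support_iff.1 hd)
    rw [Finsupp.weight_apply, Finsupp.sum_fintype _ _ (by simp)] at this
    simpa using this
  have h2 : ∏ i, (w * ρ i) ^ d i = w ^ n * ∏ i, ρ i ^ d i := by
    rw [← h1, ← Finset.prod_pow_eq_pow_sum, ← Finset.prod_mul_distrib]
    exact Finset.prod_congr rfl fun i _ => mul_pow _ _ _
  rw [h2]
  ring

/-- lift of the coefficients to a subring -/
theorem lift_coeff {k F : Type} [Field k] [Field F] [Algebra k F] (S : Subalgebra k F)
    (P : MvPolynomial (Fin 3) F) (h : ∀ a, P.coeff a ∈ S) :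
    ∃ B : MvPolynomial (Fin 3) S, map (S.val : S →+* F) B = P := by
  refine ⟨∑ a ∈ P.support, monomial a ⟨P.coeff a, h a⟩, ?_⟩
  rw [map_sum]
  have e : ∀ a, map (S.val : S →+* F) (monomial a ⟨P.coeff a, h a⟩) = monomial a (P.coeff a) := by
    intro a
    rw [map_monomial]
    rfl
  rw [Finset.sum_congr rfl fun a _ => e a]
  exact P.support_sum_monomial_coeff

theorem homog_of_map {S F : Type} [CommRing S] [Field F] (ι : S →+* F)
    (hι : Function.Injective ι) (B : MvPolynomial (Fin 3) S) (n : ℕ)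
    (h : (map ι B).IsHomogeneous n) : B.IsHomogeneous n := by
  intro d hd
  refine h (d := d) ?_
  rw [coeff_map]
  intro h0
  exact hd (hι (by rw [h0, map_zero]))

/-- transfer of the shift identity from `F` to all rings over `S` -/
theorem shift_all {S F : Type} [CommRing S] [Field F] (ι : S →+* F)
    (hι : Function.Injective ι) (B : MvPolynomial (Fin 3) S) (G : Fin 3 → S)
    (H : Fin 3 → Fin 3 → S) (q : S)
    (hF : ∀ (ρ : Fin 3 → MvPolynomial (Fin 4) F) (t : MvPolynomial (Fin 4) F),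
      eval₂ (C.comp ι) (fun i => ρ i + t * C (ι (G i))) B = eval₂ (C.comp ι) ρ B -
        t * C (ι q) * hq (fun i j => C (ι (H i j))) (cr (fun i => C (ι (G i))) ρ)
          (cr (fun i => C (ι (G i))) ρ))
    (χ : S →+* R) (ρ : Fin 3 → R) (t : R) :
    eval₂ χ (fun i => ρ i + t * χ (G i)) B = eval₂ χ ρ B -
        t * χ q * hq (fun i j => χ (H i j)) (cr (fun i => χ (G i)) ρ)
          (cr (fun i => χ (G i)) ρ) := by
  obtain ⟨Y, hY⟩ : ∃ Y : Fin 3 → MvPolynomial (Fin 4) S, Y = fun i => X i.castSucc := ⟨_, rfl⟩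
  obtain ⟨T, hT⟩ : ∃ T : MvPolynomial (Fin 4) S, T = X (Fin.last 3) := ⟨_, rfl⟩
  obtain ⟨P, hP⟩ : ∃ P : MvPolynomial (Fin 4) S, P =
      eval₂ C (fun i => Y i + T * C (G i)) B - (eval₂ C Y B -
        T * C q * hq (fun i j => C (H i j)) (cr (fun i => C (G i)) Y)
          (cr (fun i => C (G i)) Y)) := ⟨_, rfl⟩
  have hgen : ∀ (R₁ : Type) [CommRing R₁] (φ : MvPolynomial (Fin 4) S →+* R₁),
      φ P = eval₂ (φ.comp C) (fun i => φ (Y i) + φ T * φ (C (G i))) B -
        (eval₂ (φ.comp C) (fun i => φ (Y i)) B -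
        φ T * φ (C q) * hq (fun i j => φ (C (H i j))) (cr (fun i => φ (C (G i)))
          (fun i => φ (Y i))) (cr (fun i => φ (C (G i))) (fun i => φ (Y i)))) := by
    intro R₁ _ φ
    rw [hP, map_sub, map_sub, eval₂_comp_left, eval₂_comp_left, map_mul, map_mul, map_hq]
    have e1 : (fun i => φ (cr (fun i => C (G i)) Y i)) =
        cr (fun i => φ (C (G i))) (fun i => φ (Y i)) := by
      funext i
      exact map_cr φ _ _ i
    rw [e1]
    have e2 : (φ ∘ fun i => Y i + T * C (G i)) = fun i => φ (Y i) + φ T * φ (C (G i)) := by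
      funext i
      show φ (Y i + T * C (G i)) = _
      rw [map_add, map_mul]
    rw [e2]
    rfl
  have hP0 : P = 0 := by
    apply map_injective ι hι
    rw [map_zero, hgen _ (map ι)]
    have e3 : (map ι).comp (C : S →+* MvPolynomial (Fin 4) S) = C.comp ι := by
      ext a
      rw [RingHom.comp_apply, RingHom.comp_apply, map_C]
    have e4 : ∀ a : S, map ι (C a : MvPolynomial (Fin 4) S) = C (ι a) := fun a => map_C ι a
    rw [e3]
    simp only [e4]
    rw [hF, sub_self]
  have h5 := hgen _ (eval₂Hom χ (Fin.snoc ρ t : Fin 4 → R))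
  rw [hP0, map_zero] at h5
  have e5 : (eval₂Hom χ (Fin.snoc ρ t : Fin 4 → R)).comp C = χ := by
    ext a
    rw [RingHom.comp_apply, eval₂Hom_C]
  have e6 : ∀ a : S, eval₂Hom χ (Fin.snoc ρ t : Fin 4 → R) (C a) = χ a := fun a =>
    eval₂Hom_C _ _ a
  have e7 : ∀ i, eval₂Hom χ (Fin.snoc ρ t : Fin 4 → R) (Y i) = ρ i := by
    intro i
    rw [hY]
    show eval₂Hom χ (Fin.snoc ρ t : Fin 4 → R) (X i.castSucc) = ρ i
    rw [eval₂Hom_X']
    exact Fin.snoc_castSucc (α := fun _ => R) t ρ i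
  have e8 : eval₂Hom χ (Fin.snoc ρ t : Fin 4 → R) T = t := by
    rw [hT, eval₂Hom_X']
    exact Fin.snoc_last (α := fun _ => R) t ρ
  rw [e5] at h5
  simp only [e6, e7, e8] at h5
  linear_combination -h5

end Alg

end Pool.Agent.H19.SRF
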