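import Pool.Agent.H3.SF.Tg2

/-!
# MP_70ba79_ag, THEOREM S: the substitution of the chart commutes with values (VPS)
-/

set_option autoImplicit false

namespace Pool.Agent.H19.SRF

open MvPolynomial SC Pool.Agent.H27.LV
open Pool.Agent.H84.SM (dp cr dt)
open Pool.Agent.H92.SF Pool.Agent.H3.SF

section

variable {k F K : Type} [Field k] [Field F] [Algebra k F] [Field K] [Algebra k K]

/-- the coefficients of `Q` are the values of the coefficients of `P` -/
def VC (u : Fin 3 → F) (φ : Bb k u →ₐ[k] K) (P : C3 F) (Q : C3 K) : Prop :=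
  ∀ (j : ℕ) (a : Fin 3 →₀ ℕ), Vl u φ ((P.coeff j).coeff a) ((Q.coeff j).coeff a)

variable {u : Fin 3 → F} {φ : Bb k u →ₐ[k] K}

theorem vl_add (hA : T_VLA) {a a' : F} {b b' : K} (h : Vl u φ a b) (h' : Vl u φ a' b') :
    Vl u φ (a + a') (b + b') := ((hA k F K u φ).2.1 a a' b b' h h').1

theorem vl_mul (hA : T_VLA) {a a' : F} {b b' : K} (h : Vl u φ a b) (h' : Vl u φ a' b') :
    Vl u φ (a * a') (b * b') := ((hA k F K u φ).2.1 a a' b b' h h').2

theorem vl_k (hA : T_VLA) (c : k) : Vl u φ (algebraMap k F c) (algebraMap k K c) :=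
  (hA k F K u φ).2.2.2.2 c

theorem vl_zero (hA : T_VLA) : Vl u φ (0 : F) (0 : K) := by
  have h := vl_k (u := u) (φ := φ) hA 0
  rwa [map_zero, map_zero] at h

theorem vl_one (hA : T_VLA) : Vl u φ (1 : F) (1 : K) := by
  have h := vl_k (u := u) (φ := φ) hA 1
  rwa [map_one, map_one] at h

theorem vl_nat (hA : T_VLA) (m : ℕ) : Vl u φ (m : F) (m : K) := by
  have h := vl_k (u := u) (φ := φ) hA m
  rwa [map_natCast, map_natCast] at h

theorem vl_sum (hA : T_VLA) {ι : Type} (s : Finset ι) (f : ι → F) (g : ι → K)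
    (h : ∀ i ∈ s, Vl u φ (f i) (g i)) : Vl u φ (∑ i ∈ s, f i) (∑ i ∈ s, g i) := by
  classical
  induction s using Finset.induction_on with
  | empty =>
    rw [Finset.sum_empty, Finset.sum_empty]
    exact vl_zero hA
  | insert a s ha ih =>
    rw [Finset.sum_insert ha, Finset.sum_insert ha]
    exact vl_add hA (h a (Finset.mem_insert_self a s))
      (ih fun i hi => h i (Finset.mem_insert_of_mem hi))

theorem vc_add (hA : T_VLA) {P P' : C3 F} {Q Q' : C3 K} (h : VC u φ P Q) (h' : VC u φ P' Q') :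
    VC u φ (P + P') (Q + Q') := by
  intro j a
  rw [Polynomial.coeff_add, Polynomial.coeff_add, coeff_add, coeff_add]
  exact vl_add hA (h j a) (h' j a)

theorem vc_mul (hA : T_VLA) {P P' : C3 F} {Q Q' : C3 K} (h : VC u φ P Q) (h' : VC u φ P' Q') :
    VC u φ (P * P') (Q * Q') := by
  intro j a
  rw [Polynomial.coeff_mul, Polynomial.coeff_mul, coeff_sum, coeff_sum]
  refine vl_sum hA _ _ _ fun x _ => ?_
  rw [coeff_mul, coeff_mul]
  exact vl_sum hA _ _ _ fun y _ => vl_mul hA (h x.1 y.1) (h' x.2 y.2)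

theorem vc_zero (hA : T_VLA) : VC u φ (0 : C3 F) (0 : C3 K) := by
  intro j a
  rw [Polynomial.coeff_zero, Polynomial.coeff_zero, coeff_zero, coeff_zero]
  exact vl_zero hA

theorem vc_cc (hA : T_VLA) {a : F} {b : K} (h : Vl u φ a b) : VC u φ (cc a) (cc b) := by
  intro j c
  show Vl u φ (((Polynomial.C (C a) : C3 F).coeff j).coeff c)
    (((Polynomial.C (C b) : C3 K).coeff j).coeff c)
  rw [Polynomial.coeff_C, Polynomial.coeff_C]
  by_cases hj : j = 0
  · rw [if_pos hj, if_pos hj, coeff_C, coeff_C]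
    by_cases hc : 0 = c
    · rw [if_pos hc, if_pos hc]
      exact h
    · rw [if_neg hc, if_neg hc]
      exact vl_zero hA
  · rw [if_neg hj, if_neg hj, coeff_zero, coeff_zero]
    exact vl_zero hA

theorem vc_one (hA : T_VLA) : VC u φ (1 : C3 F) (1 : C3 K) := by
  have h := vc_cc hA (vl_one (u := u) (φ := φ) hA)
  rwa [map_one, map_one] at h

theorem vc_neg (hA : T_VLA) {P : C3 F} {Q : C3 K} (h : VC u φ P Q) : VC u φ (-P) (-Q) := by
  have h1 := vl_k (u := u) (φ := φ) hA (-1)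
  rw [map_neg, map_neg, map_one, map_one] at h1
  have h2 := vc_mul hA (vc_cc hA h1) h
  have e1 : (cc (-1 : F) : C3 F) * P = -P := by
    rw [map_neg, map_one]
    ring
  have e2 : (cc (-1 : K) : C3 K) * Q = -Q := by
    rw [map_neg, map_one]
    ring
  rwa [e1, e2] at h2

theorem vc_sub (hA : T_VLA) {P P' : C3 F} {Q Q' : C3 K} (h : VC u φ P Q) (h' : VC u φ P' Q') :
    VC u φ (P - P') (Q - Q') := by
  rw [sub_eq_add_neg, sub_eq_add_neg]
  exact vc_add hA h (vc_neg hA h')

theorem vc_pow (hA : T_VLA) {P : C3 F} {Q : C3 K} (h : VC u φ P Q) (n : ℕ) :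
    VC u φ (P ^ n) (Q ^ n) := by
  induction n with
  | zero =>
    rw [pow_zero, pow_zero]
    exact vc_one hA
  | succ n ih =>
    rw [pow_succ, pow_succ]
    exact vc_mul hA ih h

theorem vc_sum (hA : T_VLA) {ι : Type} (s : Finset ι) (f : ι → C3 F) (g : ι → C3 K)
    (h : ∀ i ∈ s, VC u φ (f i) (g i)) : VC u φ (∑ i ∈ s, f i) (∑ i ∈ s, g i) := by
  classical
  induction s using Finset.induction_on with
  | empty =>
    rw [Finset.sum_empty, Finset.sum_empty]
    exact vc_zero hA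
  | insert a s ha ih =>
    rw [Finset.sum_insert ha, Finset.sum_insert ha]
    exact vc_add hA (h a (Finset.mem_insert_self a s))
      (ih fun i hi => h i (Finset.mem_insert_of_mem hi))

theorem vc_rv (hA : T_VLA) (i : Fin 3) : VC u φ (rv i) (rv i) := by
  intro j a
  show Vl u φ (((Polynomial.C (X i) : C3 F).coeff j).coeff a)
    (((Polynomial.C (X i) : C3 K).coeff j).coeff a)
  rw [Polynomial.coeff_C, Polynomial.coeff_C]
  by_cases hj : j = 0
  · rw [if_pos hj, if_pos hj, coeff_X, coeff_X]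
    by_cases hc : Finsupp.single i 1 = a
    · rw [if_pos hc, if_pos hc]
      exact vl_one hA
    · rw [if_neg hc, if_neg hc]
      exact vl_zero hA
  · rw [if_neg hj, if_neg hj, coeff_zero, coeff_zero]
    exact vl_zero hA

theorem vc_zv (hA : T_VLA) : VC u φ zv zv := by
  intro j a
  show Vl u φ (((Polynomial.X : C3 F).coeff j).coeff a) (((Polynomial.X : C3 K).coeff j).coeff a)
  rw [Polynomial.coeff_X, Polynomial.coeff_X]
  by_cases hj : 1 = j
  · rw [if_pos hj, if_pos hj, coeff_one, coeff_one]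
    by_cases hc : 0 = a
    · rw [if_pos hc, if_pos hc]
      exact vl_one hA
    · rw [if_neg hc, if_neg hc]
      exact vl_zero hA
  · rw [if_neg hj, if_neg hj, coeff_zero, coeff_zero]
    exact vl_zero hA

/-- `ev2` as a finite sum -/
theorem ev2_sum {L R : Type} [CommRing L] [CommRing R] (f : L →+* R) (p : Fin 3 → R) (w : R)
    (V : Q2 L) (N : ℕ) (hN : V.natDegree < N) (S : Finset (Fin 2 →₀ ℕ))
    (hS : ∀ j, (V.coeff j).support ⊆ S) :
    ev2 f p w V = ∑ j ∈ Finset.range N,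
      (∑ a ∈ S, f ((V.coeff j).coeff a) * (p 1 ^ a 0 * p 2 ^ a 1)) * w ^ j := by
  show Polynomial.eval₂ (eval₂Hom f ![p 1, p 2]) w V = _
  rw [Polynomial.eval₂_eq_sum_range' _ hN]
  refine Finset.sum_congr rfl fun j _ => ?_
  refine congrArg (fun z => z * w ^ j) ?_
  show eval₂ f ![p 1, p 2] (V.coeff j) = _
  rw [eval₂_eq']
  rw [Finset.sum_subset (hS j)]
  · refine Finset.sum_congr rfl fun a _ => ?_
    rw [Fin.prod_univ_two]
    rfl
  · intro a _ ha
    rw [notMem_support_iff.1 ha, map_zero, zero_mul]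

end

theorem pf_VPS (hVLA : T_VLA) (_hVLQ : T_VLQ) : T_VPS := by
  intro k F K _ _ _ _ _ _ _ u dd J φ m G x g g0 s H hu hG hJ hg hH V W hVW
  have hA := hVLA
  have hmG : VC u φ (cc ((m : F) * G)) (cc ((m : K) * g0)) := vc_cc hA (vl_mul hA (vl_nat hA m) hG)
  have hs : VC u φ (cc (aeval u J)) (cc s) := vc_cc hA hJ
  have hmu : VC u φ (muc u) (muc x) := by
    unfold muc dp
    exact vc_sum hA _ _ _ fun i _ => vc_mul hA (vc_cc hA (hu i)) (vc_rv hA i)
  have hgc : ∀ i, VC u φ (cc (grd dd G i)) (cc (g i)) := fun i => vc_cc hA (hg i)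
  have hpc : ∀ i, VC u φ (pc m u (grd dd G) G (aeval u J) i) (pc m x g g0 s i) := fun i =>
    vc_mul hA (vc_pow hA hs 2) (vc_sub hA (vc_mul hA (hgc i) hmu) (vc_mul hA hmG (vc_rv hA i)))
  have hgx : ∀ i, VC u φ (gxr (grd dd G) i) (gxr g i) := fun i =>
    vc_sub hA (vc_mul hA (hgc _) (vc_rv hA _)) (vc_mul hA (hgc _) (vc_rv hA _))
  have hhq : VC u φ (hq (fun i j => cc (hes dd G i j)) (gxr (grd dd G)) (gxr (grd dd G)))
      (hq (fun i j => cc (H i j)) (gxr g) (gxr g)) := by
    unfold hq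
    refine vc_sum hA _ _ _ fun i _ => vc_sum hA _ _ _ fun j _ => ?_
    exact vc_mul hA (vc_mul hA (vc_cc hA (hH i j)) (hgx i)) (hgx j)
  have hwc : VC u φ (wc m u (grd dd G) G (hes dd G) (aeval u J)) (wc m x g g0 H s) :=
    vc_sub hA (vc_mul hA hmG (vc_zv hA))
      (vc_mul hA (vc_mul hA (vc_pow hA hs 6) hhq) hmu)
  obtain ⟨N, hN⟩ : ∃ N, N = max V.natDegree W.natDegree + 1 := ⟨_, rfl⟩
  classical
  obtain ⟨S, hS⟩ : ∃ S : Finset (Fin 2 →₀ ℕ), S =
      (Finset.range N).biUnion fun j => (V.coeff j).support ∪ (W.coeff j).support := ⟨_, rfl⟩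
  have hVN : V.natDegree < N := by
    rw [hN]
    have := le_max_left V.natDegree W.natDegree
    omega
  have hWN : W.natDegree < N := by
    rw [hN]
    have := le_max_right V.natDegree W.natDegree
    omega
  have hSV : ∀ j, (V.coeff j).support ⊆ S := by
    intro j a ha
    have hj : j < N := by
      by_contra h
      rw [Polynomial.coeff_eq_zero_of_natDegree_lt (by omega), support_zero] at ha
      exact absurd ha (Finset.notMem_empty a)
    rw [hS, Finset.mem_biUnion]
    exact ⟨j, Finset.mem_range.2 hj, Finset.mem_union_left _ ha⟩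
  have hSW : ∀ j, (W.coeff j).support ⊆ S := by
    intro j a ha
    have hj : j < N := by
      by_contra h
      rw [Polynomial.coeff_eq_zero_of_natDegree_lt (by omega), support_zero] at ha
      exact absurd ha (Finset.notMem_empty a)
    rw [hS, Finset.mem_biUnion]
    exact ⟨j, Finset.mem_range.2 hj, Finset.mem_union_right _ ha⟩
  have hfin : VC u φ (Ps u dd J m G V) (Psi m x g g0 H s W) := by
    show VC u φ (ev2 cc (pc m u (grd dd G) G (aeval u J))
      (wc m u (grd dd G) G (hes dd G) (aeval u J)) V)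
      (ev2 cc (pc m x g g0 s) (wc m x g g0 H s) W)
    rw [ev2_sum cc _ _ V N hVN S hSV, ev2_sum cc _ _ W N hWN S hSW]
    refine vc_sum hA _ _ _ fun j _ => vc_mul hA ?_ (vc_pow hA hwc j)
    refine vc_sum hA _ _ _ fun a _ => vc_mul hA (vc_cc hA (hVW j a)) ?_
    exact vc_mul hA (vc_pow hA (hpc 1) _) (vc_pow hA (hpc 2) _)
  exact hfin

end Pool.Agent.H19.SRF
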